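import Mathlib
import Pool.Agent.WUI.Table

/-!
# Total weak unit interval graphs with `2|V| - 2` edges

The conjectured bound `|E| ≤ 2|V| - 3` for total weak unit interval graphs fails: there is a total
weak unit interval graph with 8 vertices and 14 edges.
-/

set_option autoImplicit false

namespace Pool.Agent.Results.MP_f51a03_co.Disproof

/-- The two possible labels of an edge: near (`N`) and far (`F`). -/
inductive Label : Type
  | N : Label
  | F : Label

/-- `IsWUIRep G ℓ t I`: the map `I : V → ℝ` together with the number `t > 0` is a weak unit interval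
representation of `G` with respect to the edge-labelling `ℓ`, that is, for every edge `uv` the
inequality `|I u - I v| ≤ t` holds if and only if `uv` is near. -/
def IsWUIRep {V : Type} (G : SimpleGraph V) (ℓ : G.edgeSet → Label) (t : ℝ) (I : V → ℝ) : Prop :=
  0 < t ∧ ∀ (u v : V) (h : G.Adj u v), |I u - I v| ≤ t ↔ ℓ ⟨s(u, v), h⟩ = Label.N

/-- `G` is a total weak unit interval graph: it has a weak unit interval representation with respect
to every edge-labelling. -/
def IsTotalWUI {V : Type} (G : SimpleGraph V) : Prop :=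
  ∀ ℓ : G.edgeSet → Label, ∃ (t : ℝ) (I : V → ℝ), IsWUIRep G ℓ t I

/-- The list of edges of the graph, each once. -/
def edges : List (Fin 8 × Fin 8) := Pool.Agent.WUI.edgesRev

/-- The 8-vertex graph: a 4-cycle `0123`, a triangle on each of its sides with apexes `4,5,6,7`, and
the edges `46` and `57`. -/
def G₀ : SimpleGraph (Fin 8) where
  Adj u v := (u, v) ∈ edges ∨ (v, u) ∈ edges
  symm := ⟨fun _ _ h => Or.symm h⟩
  loopless := ⟨by decide⟩

instance : DecidableRel G₀.Adj := fun u v =>
  inferInstanceAs (Decidable ((u, v) ∈ edges ∨ (v, u) ∈ edges))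

theorem card_edges : G₀.edgeSet.ncard = 14 := by
  rw [← SimpleGraph.coe_edgeFinset, Set.ncard_coe_finset]
  decide +kernel

open Pool.Agent.WUI in
theorem nearB_iff (w : ℕ) (e : Fin 8 × Fin 8) :
    nearB w e = true ↔ |((dig w e.1.val : ℕ) : ℝ) - ((dig w e.2.val : ℕ) : ℝ)| ≤ 2 := by
  unfold nearB
  rw [Bool.and_eq_true, Nat.ble_eq, Nat.ble_eq, abs_le]
  constructor
  · rintro ⟨h1, h2⟩
    have h1' : ((dig w e.1.val : ℕ) : ℝ) ≤ (dig w e.2.val : ℕ) + 2 := by exact_mod_cast h1
    have h2' : ((dig w e.2.val : ℕ) : ℝ) ≤ (dig w e.1.val : ℕ) + 2 := by exact_mod_cast h2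
    constructor <;> linarith
  · rintro ⟨h1, h2⟩
    constructor
    · have : ((dig w e.1.val : ℕ) : ℝ) ≤ (dig w e.2.val : ℕ) + 2 := by linarith
      exact_mod_cast this
    · have : ((dig w e.2.val : ℕ) : ℝ) ≤ (dig w e.1.val : ℕ) + 2 := by linarith
      exact_mod_cast this

open Pool.Agent.WUI in
open Classical in
theorem isTotal : IsTotalWUI G₀ := by
  intro ℓ
  obtain ⟨w, hw⟩ := exists_code (fun e =>
    if h : G₀.Adj e.1 e.2 then decide (ℓ ⟨s(e.1, e.2), h⟩ = Label.N) else false)
  refine ⟨2, fun v => (dig w v.val : ℕ), two_pos, ?_⟩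
  have key : ∀ (u v : Fin 8) (h : G₀.Adj u v), (u, v) ∈ edges →
      (|((dig w u.val : ℕ) : ℝ) - ((dig w v.val : ℕ) : ℝ)| ≤ 2 ↔ ℓ ⟨s(u, v), h⟩ = Label.N) := by
    intro u v h he
    have h1 := hw (u, v) he
    rw [dif_pos h] at h1
    rw [← nearB_iff w (u, v), h1, decide_eq_true_iff]
  intro u v h
  rcases h with he | he
  · exact key u v _ he
  · have h2 := key v u (Or.inl he) he
    rw [abs_sub_comm, h2]
    have : (⟨s(v, u), Or.inl he⟩ : G₀.edgeSet) = ⟨s(u, v), Or.inr he⟩ := Subtype.ext Sym2.eq_swap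
    rw [this]

/-- There is a total weak unit interval graph with `|V| = 8` vertices and `14 = 2|V| - 2` edges. -/
theorem result : ∃ G : SimpleGraph (Fin 8), IsTotalWUI G ∧ G.edgeSet.ncard = 2 * 8 - 2 :=
  ⟨G₀, isTotal, card_edges⟩

end Pool.Agent.Results.MP_f51a03_co.Disproof
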